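import Pool.Agent.W133.DQ.StC

set_option autoImplicit false
open scoped ContDiff
open Set Filter Topology

namespace Pool.Agent.W67.DQ
open Pool.Agent.W133.DQ

/-- the complex number of a vector -/
noncomputable def zc (v : P2) : ℂ := ⟨v.1, v.2⟩

lemma continuous_zc : Continuous zc := by
  have : zc = fun v => Complex.equivRealProdCLM.symm v := by
    funext v
    rfl
  rw [this]
  exact Complex.equivRealProdCLM.symm.continuous

lemma zc_ne {v : P2} (hv : v ≠ 0) : zc v ≠ 0 := by
  intro h
  apply hv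
  have h1 := congrArg Complex.re h
  have h2 := congrArg Complex.im h
  simp [zc] at h1 h2
  exact Prod.ext h1 h2

/-- subdivision points -/
noncomputable def sp (q0 : ℝ × ℝ) (N i : ℕ) (q : ℝ × ℝ) : ℝ × ℝ := q0 + ((i : ℝ) / N) • (q - q0)

lemma sp_mem {K : Set (ℝ × ℝ)} (hK : Convex ℝ K) {q0 q : ℝ × ℝ} (h0 : q0 ∈ K) (hq : q ∈ K)
    {N i : ℕ} (hi : i ≤ N) : sp q0 N i q ∈ K := by
  unfold sp
  apply hK.add_smul_sub_mem h0 hq
  constructor
  · positivity
  · apply div_le_one_of_le₀ (by exact_mod_cast hi) (by positivity)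

lemma continuous_sp (q0 : ℝ × ℝ) (N i : ℕ) : Continuous (sp q0 N i) := by
  unfold sp
  fun_prop

theorem lift : S_LIFT := by
  intro K e hK hKc he hne
  rcases K.eq_empty_or_nonempty with hemp | ⟨q0, h0⟩
  · subst hemp
    exact ⟨fun _ => 0, continuousOn_empty _, fun q hq => absurd hq (Set.notMem_empty q)⟩
  set z : ℝ × ℝ → ℂ := fun q => zc (e q) with hz
  have hzc : ContinuousOn z K := continuous_zc.comp_continuousOn he
  have hzne : ∀ q ∈ K, z q ≠ 0 := fun q hq => zc_ne (hne q hq)
  obtain ⟨qm, hqm, hmin⟩ := hKc.exists_isMinOn ⟨q0, h0⟩ hzc.norm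
  have hmpos : 0 < ‖z qm‖ := norm_pos_iff.2 (hzne qm hqm)
  have hmle : ∀ q ∈ K, ‖z qm‖ ≤ ‖z q‖ := fun q hq => hmin hq
  have huc := hKc.uniformContinuousOn_of_continuous hzc
  obtain ⟨δ, hδ, huc'⟩ := Metric.uniformContinuousOn_iff.1 huc ‖z qm‖ hmpos
  obtain ⟨R, hR⟩ := hKc.isBounded.subset_closedBall q0
  have hR' : ∀ q ∈ K, ‖q - q0‖ ≤ R := by
    intro q hq
    have := hR hq
    rwa [Metric.mem_closedBall, dist_eq_norm] at this
  obtain ⟨N, hN⟩ := exists_nat_gt (max R 0 / δ)
  have hNpos : (0 : ℝ) < N := lt_of_le_of_lt (by positivity) hN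
  have hN1 : R < N * δ := by
    rw [div_lt_iff₀ hδ] at hN
    exact lt_of_le_of_lt (le_max_left _ _) hN
  have hdist : ∀ q ∈ K, ∀ i : ℕ, dist (sp q0 N (i + 1) q) (sp q0 N i q) < δ := by
    intro q hq i
    rw [dist_eq_norm]
    have h1 : sp q0 N (i + 1) q - sp q0 N i q = ((1 : ℝ) / N) • (q - q0) := by
      unfold sp
      rw [add_sub_add_left_eq_sub, ← sub_smul]
      congr 1
      push_cast
      ring
    rw [h1, norm_smul, Real.norm_of_nonneg (by positivity)]
    have h2 := hR' q hq
    rw [one_div, inv_mul_lt_iff₀ hNpos]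
    linarith
  set w : ℕ → ℝ × ℝ → ℂ := fun i q => z (sp q0 N (i + 1) q) / z (sp q0 N i q) with hw
  have hwc : ∀ i < N, ContinuousOn (w i) K := by
    intro i hi
    apply ContinuousOn.div
    · exact hzc.comp (continuous_sp _ _ _).continuousOn (fun q hq => sp_mem hK h0 hq (by omega))
    · exact hzc.comp (continuous_sp _ _ _).continuousOn (fun q hq => sp_mem hK h0 hq (by omega))
    · intro q hq
      exact hzne _ (sp_mem hK h0 hq (by omega))
  have hws : ∀ i < N, ∀ q ∈ K, w i q ∈ Complex.slitPlane := by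
    intro i hi q hq
    have h1 := hzne _ (sp_mem hK h0 hq (i := i) (N := N) (by omega))
    have h2 := huc' _ (sp_mem hK h0 hq (i := i + 1) (N := N) (by omega)) _
      (sp_mem hK h0 hq (i := i) (N := N) (by omega)) (hdist q hq i)
    have h3 : ‖w i q - 1‖ < 1 := by
      have h4 : w i q - 1 = (z (sp q0 N (i + 1) q) - z (sp q0 N i q)) / z (sp q0 N i q) := by
        simp only [hw]
        field_simp
      rw [h4, norm_div, div_lt_one (norm_pos_iff.2 h1)]
      rw [dist_eq_norm] at h2
      exact lt_of_lt_of_le h2 (hmle _ (sp_mem hK h0 hq (by omega)))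
    left
    have h5 := Complex.abs_re_le_norm (w i q - 1)
    rw [Complex.sub_re, Complex.one_re] at h5
    have h6 := abs_lt.1 (lt_of_le_of_lt h5 h3)
    linarith [h6.1]
  refine ⟨fun q => Complex.arg (z q0) + ∑ i ∈ Finset.range N, Complex.arg (w i q), ?_, ?_⟩
  · apply ContinuousOn.add continuousOn_const
    apply continuousOn_finset_sum
    intro i hi q hq
    have hi' : i < N := Finset.mem_range.1 hi
    exact (Complex.continuousAt_arg (hws i hi' q hq)).comp_continuousWithinAt (hwc i hi' q hq)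
  · intro q hq
    have key : ∀ k : ℕ, k ≤ N → ∃ r : ℝ, 0 < r ∧ z (sp q0 N k q) =
        r * Complex.exp ((((Complex.arg (z q0) + ∑ i ∈ Finset.range k, Complex.arg (w i q)) : ℝ) : ℂ) *
          Complex.I) := by
      intro k
      induction k with
      | zero =>
        intro _
        have h1 : sp q0 N 0 q = q0 := by simp [sp]
        refine ⟨‖z q0‖, norm_pos_iff.2 (hzne q0 h0), ?_⟩
        rw [h1, Finset.range_zero, Finset.sum_empty, add_zero]
        exact (Complex.norm_mul_exp_arg_mul_I (z q0)).symm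
      | succ k ih =>
        intro hk
        obtain ⟨r, hr, hr2⟩ := ih (by omega)
        have h1 := hzne _ (sp_mem hK h0 hq (i := k) (N := N) (by omega))
        have h2 := hzne _ (sp_mem hK h0 hq (i := k + 1) (N := N) (by omega))
        have h3 : w k q ≠ 0 := div_ne_zero h2 h1
        refine ⟨‖w k q‖ * r, mul_pos (norm_pos_iff.2 h3) hr, ?_⟩
        have h4 : z (sp q0 N (k + 1) q) = w k q * z (sp q0 N k q) := by
          simp only [hw]
          field_simp
        rw [h4, hr2, Finset.sum_range_succ]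
        conv_lhs => rw [← Complex.norm_mul_exp_arg_mul_I (w k q)]
        push_cast
        rw [← add_assoc, add_mul _ (Complex.arg (w k q) : ℂ) Complex.I, Complex.exp_add]
        ring
    obtain ⟨r, hr, hr2⟩ := key N le_rfl
    have h1 : sp q0 N N q = q := by
      unfold sp
      rw [div_self hNpos.ne', one_smul, add_sub_cancel]
    rw [h1] at hr2
    refine ⟨r, hr, ?_⟩
    set Θ := (Complex.arg (z q0) + ∑ i ∈ Finset.range N, Complex.arg (w i q)) with hΘ
    have h2 := congrArg Complex.re hr2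
    have h3 := congrArg Complex.im hr2
    rw [Complex.re_ofReal_mul, Complex.exp_ofReal_mul_I_re] at h2
    rw [Complex.im_ofReal_mul, Complex.exp_ofReal_mul_I_im] at h3
    exact Prod.ext h2 h3

end Pool.Agent.W67.DQ
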