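import Pool.Agent.W133.DQ.StF
import Pool.Agent.Helper339.CW.P_main_line

set_option autoImplicit false
open scoped ContDiff
open Set Filter Topology

namespace Pool.Agent.W67.DQ
open Pool.Agent.W133.DQ

theorem comc : S_COMC := by
  intro X hX
  obtain ⟨A, B, m, hA, hB, h⟩ := Pool.Agent.Helper339.CW.main_line X hX
  exact ⟨A, B, m, hA, hB, h⟩

end Pool.Agent.W67.DQ
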